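import Pool.Agent.Helper65.KG.Goals

/-!
# Project KG (MP_20ee5e_ag), packet FA: axes
-/

set_option autoImplicit false

open MeasureTheory Set

namespace Pool.Agent.Helper91.KG.FA

open Pool.Agent.Helper70.KN Pool.Agent.Helper65.KG

theorem t : S_FA := by
  classical
  intro N V _ i m hm
  have hsub : cyl V (Finset.univ.erase i) ⊆
      Set.pi Set.univ (fun j => if j = i then Ico (0 : ℝ) m else Ico (0 : ℝ) 1) := by
    rintro x ⟨h0, h1, hx⟩ j _
    by_cases hj : j = i
    · subst hj
      simp only [if_true]
      refine ⟨h0 j, ?_⟩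
      by_contra hlt
      rw [not_lt] at hlt
      apply hx
      refine ⟨fun k => ((Pi.single j m : Fin N → ℕ) k : ℝ),
        subset_convexHull ℝ _ ⟨Pi.single j m, hm, rfl⟩, ?_⟩
      intro k
      by_cases hk : k = j
      · subst hk
        simp only [zr, Finset.mem_erase, ne_eq, not_true_eq_false, false_and, if_false,
          Pi.single_eq_same]
        exact hlt
      · simp only [zr, Finset.mem_erase, ne_eq, hk, not_false_eq_true, Finset.mem_univ, and_self,
          if_true, Pi.single_eq_of_ne hk, Nat.cast_zero]
        exact le_refl _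
    · simp only [hj, if_false]
      exact ⟨h0 j, h1 j (Finset.mem_erase.2 ⟨hj, Finset.mem_univ _⟩)⟩
  have hvol : volume (cyl V (Finset.univ.erase i)) ≤ ENNReal.ofReal m := by
    refine (measure_mono hsub).trans ?_
    rw [volume_pi_pi]
    rw [← Finset.mul_prod_erase Finset.univ _ (Finset.mem_univ i)]
    rw [Finset.prod_eq_one]
    · simp only [if_true, Real.volume_Ico, sub_zero, mul_one]
      exact le_refl _
    · intro j hj
      have hne := Finset.ne_of_mem_erase hj
      simp only [hne, if_false, Real.volume_Ico, sub_zero, ENNReal.ofReal_one]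
  unfold W
  have h2 := ENNReal.toReal_mono ENNReal.ofReal_ne_top hvol
  rwa [ENNReal.toReal_ofReal (Nat.cast_nonneg m)] at h2

end Pool.Agent.Helper91.KG.FA
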